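import Mathlib

namespace Pool.Agent.H.MP_74cd3a_lc

open Classical

variable {K : Type}

def Lip (b : K) (u v : K → ℤ) : Prop := ∀ c, v c - u c ≤ v b - u b ∧ u c - v c ≤ v b - u b
def sg (ε : Bool) (z : ℤ) : ℤ := if ε then z else -z

theorem Lip.trans {b : K} {u v w : K → ℤ} (h : Lip b u v) (g : Lip b v w) : Lip b u w := fun c => by
  have := h c; have := g c; omega

section
variable {ι L : Type} (o : ι → K) (x : ι → K → ℤ) (l : ι → L)

def Ch : Prop := ∀ p q, o p = o q → Lip (o p) (x p) (x q) ∨ Lip (o p) (x q) (x p)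
def Cv : Prop := (∀ p q, l p = l q → o p = o q) ∧
  ∀ p q m, l p = l q → o m = o p → x p (o p) ≤ x m (o p) → x m (o p) ≤ x q (o p) → l m = l p
def Hl (p : ι) (y : K → ℤ) : Prop := ∃ u v, l u = l p ∧ l v = l p ∧ Lip (o p) (x u) y ∧ Lip (o p) y (x v)
def Sf (p q : ι) : Prop := ∀ y, Hl o x l p y → ¬ Hl o x l q y
def Tt (p : ι) (c : K) : Prop := ∃ ε, ∀ u v, l u = l p → l v = l p → sg ε (x v c - x u c) = x v (o p) - x u (o p)

variable {o x l}

theorem pair [Finite ι] (h : Ch o x) (cv : Cv o x l) (p q : ι) (c : K) : ∃ θ : Fin 8 → ι → Prop,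
    (∀ i u v, (l u = l p ∧ l v = l p ∨ l u = l q ∧ l v = l q) → ∀ m, l m = l u → x u (o u) ≤ x m (o u) → x m (o u) ≤ x v (o u) →
      (θ i u ↔ θ i v) → (θ i m ↔ θ i u)) ∧
    (Tt o x l p c → ∀ u u' v v' y, l u = l p → l u' = l p → l v = l q → l v' = l q → Lip (o p) (x u) y → Lip (o p) y (x u') →
      Lip (o q) (x v) y → Lip (o q) y (x v') → (∀ i, (θ i u ↔ θ i u')) → (∀ i, (θ i v ↔ θ i v')) →
      (∃ ε, ∀ w w', (∀ i, (θ i w ↔ θ i v)) → (∀ i, (θ i w' ↔ θ i v)) →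
        sg ε (x w' c - x w c) = x w' (o q) - x w (o q)) ∧ ∀ w, (∀ i, (θ i w ↔ θ i v)) →
          ∃ a b, l a = l p ∧ l b = l p ∧ x a c ≤ x w c ∧ x w c ≤ x b c) := by
  by_cases ht : Tt o x l p c
  swap
  · exact ⟨⊥, by simp, (ht · |>.elim)⟩
  obtain ⟨ε, hε⟩ := ht
  let σ := fun u => sg ε (x u c) + x u (o q)
  let ψ := fun u => sg ε (x u c) - x u (o q)
  have ch : ∀ u v, o u = o v → x u (o u) ≤ x v (o u) → Lip (o u) (x u) (x v) := fun u v e a =>
    (h u v e).elim id fun b c => by have := b c; have := b (o u); omega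
  have m1 : ∀ u v, l u = l p → l v = l p → x u (o u) ≤ x v (o u) → σ u ≤ σ v ∧ ψ u ≤ ψ v := fun u v a b e => by
    have := ch u v (cv.1 _ _ (a.trans b.symm)) e (o q)
    have := hε u v a b
    rw [← cv.1 _ _ a] at this
    cases ε <;> simp only [σ, ψ, sg] at * <;> simp at * <;> omega
  have m2 : ∀ u v, l u = l q → l v = l q → x u (o u) ≤ x v (o u) → σ u ≤ σ v ∧ ψ v ≤ ψ u := fun u v a b e => by
    have := ch u v (cv.1 _ _ (a.trans b.symm)) e c
    rw [cv.1 _ _ a] at this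
    cases ε <;> simp only [σ, ψ, sg] at * <;> simp at * <;> omega
  obtain ⟨a, a1, a2⟩ := Set.exists_min_image {u | l u = l p} (x · (o p)) (Set.toFinite _) ⟨p, rfl⟩
  obtain ⟨b, b1, b2⟩ := Set.exists_max_image {u | l u = l p} (x · (o p)) (Set.toFinite _) ⟨p, rfl⟩
  obtain ⟨s, t, e⟩ : ∃ s t, ∀ u v, l u = l p → l v = l q → (ψ v ≤ ψ u → s ≤ σ u ∨ s ≤ σ v) ∧
      (s < σ u → s < σ v → ψ v ≤ ψ u → ψ v ≤ t ∧ t ≤ ψ u) := by
    by_cases n : {z : ι × ι | l z.1 = l p ∧ l z.2 = l q ∧ ψ z.2 ≤ ψ z.1}.Nonempty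
    · obtain ⟨z, ⟨z1, z2, z3⟩, z4⟩ := Set.exists_min_image _ (fun z => max (σ z.1) (σ z.2)) (Set.toFinite _) n
      refine ⟨max (σ z.1) (σ z.2), ψ z.1, fun u v c d => ⟨fun e => le_max_iff.1 (z4 (u, v) ⟨c, d, e⟩), fun e f _ => ?_⟩⟩
      have h1 := m1 u z.1 c z1
      have h2 := m1 z.1 u z1 c
      have h3 := m2 v z.2 d z2
      have h4 := m2 z.2 v z2 d
      rw [cv.1 _ _ (z1.trans c.symm)] at h2
      rw [cv.1 _ _ (z2.trans d.symm)] at h4
      omega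
    · exact ⟨0, 0, fun u v c d => ⟨fun e => (n ⟨(u, v), c, d, e⟩).elim, fun _ _ e => (n ⟨(u, v), c, d, e⟩).elim⟩⟩
  refine ⟨![(s ≤ σ ·), (s < σ ·), (σ a ≤ σ ·), (σ b < σ ·), (t ≤ ψ ·), (t < ψ ·), (ψ a ≤ ψ ·), (ψ b < ψ ·)], fun i u v k m e f g => ?_,
    fun _ u u' v v' y u1 u2 v1 v2 y1 y2 y3 y4 s1 s2 => ?_⟩
  · have : σ u ≤ σ m ∧ σ m ≤ σ v ∧ (ψ u ≤ ψ m ∧ ψ m ≤ ψ v ∨ ψ m ≤ ψ u ∧ ψ v ≤ ψ m) := by
      rw [← cv.1 _ _ e] at g
      rcases k with k | k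
      · have := m1 u m k.1 (e.trans k.1) f; have := m1 m v (e.trans k.1) k.2 g; omega
      · have := m2 u m k.1 (e.trans k.1) f; have := m2 m v (e.trans k.1) k.2 g; omega
    fin_cases i <;> simp only [Fin.reduceFinMk, Matrix.cons_val] <;> omega
  have h1 : σ a ≤ σ u ∧ ψ a ≤ ψ u := m1 a u a1 u1 (cv.1 _ _ a1 ▸ a2 u u1)
  have h2 : σ u' ≤ σ b ∧ ψ u' ≤ ψ b := m1 u' b u2 b1 (cv.1 _ _ u2 ▸ b2 u' u2)
  have h3 : σ u ≤ σ v' ∧ σ v ≤ σ u' ∧ ψ u ≤ ψ v ∧ ψ v' ≤ ψ u' ∧ σ u ≤ σ u' ∧ σ v ≤ σ v' ∧ ψ u ≤ ψ u' ∧ ψ v' ≤ ψ v := by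
    have := hε u u' u1 u2
    have := y1 c; have := y2 c; have := y3 c; have := y4 c; have := y1 (o q); have := y2 (o q)
    cases ε <;> simp only [σ, ψ, sg] at * <;> simp at * <;> omega
  have e1 := e u' v' u2 v2
  have e2 := e u v u1 v1
  simp only [Fin.forall_fin_succ, Matrix.cons_val_zero, Matrix.cons_val_succ, IsEmpty.forall_iff, and_true] at s1 s2 ⊢
  have h4 : σ v = s ∨ ψ v = t := by omega
  refine ⟨h4.elim (fun k => ⟨!ε, fun w w' c d => ?_⟩) fun k => ⟨ε, fun w w' c d => ?_⟩, fun w k => ?_⟩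
  · have : σ w = σ w' := by omega
    cases ε <;> simp only [σ, sg] at this ⊢ <;> simp at this ⊢ <;> omega
  · have : ψ w = ψ w' := by omega
    cases ε <;> simp only [ψ, sg] at this ⊢ <;> simp at this ⊢ <;> omega
  · have : σ a ≤ σ w ∧ σ w ≤ σ b ∧ ψ a ≤ ψ w ∧ ψ w ≤ ψ b := by omega
    cases ε <;> simp only [σ, ψ, sg] at this <;> simp at this
    exacts [⟨b, a, b1, a1, by omega⟩, ⟨a, b, a1, b1, by omega⟩]

variable {L' : Type} {l' : ι → L'}

theorem Hl.mono (r : ∀ p q, l' p = l' q → l p = l q) {p y} : Hl o x l' p y → Hl o x l p y :=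
  fun ⟨u, v, a, b, c⟩ => ⟨u, v, r _ _ a, r _ _ b, c⟩
theorem Sf.mono (r : ∀ p q, l' p = l' q → l p = l q) {p q} (h : Sf o x l p q) : Sf o x l' p q :=
  fun y a b => h y (a.mono r) (b.mono r)
theorem Tt.mono (r : ∀ p q, l' p = l' q → l p = l q) {p c} : Tt o x l p c → Tt o x l' p c :=
  fun ⟨ε, h⟩ => ⟨ε, fun u v a b => h u v (r _ _ a) (r _ _ b)⟩
theorem Sf.symm {p q} (h : Sf o x l p q) : Sf o x l q p := fun y a b => h y b a
theorem Sf.congr (cv : Cv o x l) {p q q'} (h : Sf o x l p q) (e : l q' = l q) : Sf o x l p q' :=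
  fun y a ⟨u, v, b, c, d⟩ => h y a ⟨u, v, b.trans e, c.trans e, cv.1 _ _ e ▸ d⟩
end

variable [Fintype K]

theorem round (N : ℕ) : ∃ N', ∀ (ι : Type) [Finite ι] (o : ι → K) (x : ι → K → ℤ) (l : ι → Fin N), Ch o x → Cv o x l →
    ∃ l' : ι → Fin N', Cv o x l' ∧ (∀ p q, l' p = l' q → l p = l q) ∧ ∀ p q c, Tt o x l p c → ¬ Sf o x l' p q →
      Tt o x l' q c ∧ ∀ w, l' w = l' q → ∃ a b, l a = l p ∧ l b = l p ∧ x a c ≤ x w c ∧ x w c ≤ x b c := by
  refine ⟨Fintype.card (Fin N × (Fin N → Fin N → K → Fin 8 → Prop)), fun ι _ o x l h cv => ?_⟩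
  choose θ h1 h2 using pair h cv
  let r : ι → ι := fun p => (⟨p, rfl⟩ : ∃ q, l q = l p).choose
  have r1 : ∀ p, l (r p) = l p := fun p => (⟨p, rfl⟩ : ∃ q, l q = l p).choose_spec
  let m := fun u => (l u, fun (A B : Fin N) c i => ∃ p q, l p = A ∧ l q = B ∧ (l u = A ∨ l u = B) ∧ θ (r p) (r q) c i u)
  have r2 : ∀ p q, l p = l q → r p = r q := fun p q e => by simp only [r, e]
  have m1 : ∀ u v, m u = m v ↔ l u = l v ∧ ∀ p q c i, l u = l p ∨ l u = l q → (θ (r p) (r q) c i u ↔ θ (r p) (r q) c i v) := by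
    refine fun u v => Prod.ext_iff.trans (and_congr_right fun e => ⟨fun f p q c i k => ?_, fun f => ?_⟩)
    · have := congrFun (congrFun (congrFun (congrFun f (l p)) (l q)) c) i
      simp only [m, eq_iff_iff] at this e
      refine ⟨fun t => ?_, fun t => ?_⟩
      · obtain ⟨p', q', a, b, -, d⟩ := this.1 ⟨p, q, rfl, rfl, k, t⟩; rwa [r2 _ _ a, r2 _ _ b] at d
      · obtain ⟨p', q', a, b, -, d⟩ := this.2 ⟨p, q, rfl, rfl, e ▸ k, t⟩; rwa [r2 _ _ a, r2 _ _ b] at d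
    · funext A B c i
      refine propext (exists₂_congr fun p q => and_congr_right fun a => and_congr_right fun b => ?_)
      subst a b
      exact (and_congr_right (f p q c i)).trans (and_congr_left' (by rw [show l u = l v from e]))
  refine ⟨fun u => Fintype.equivFin _ (m u), ?_⟩
  simp only [Cv, Tt, Sf, Hl, Equiv.apply_eq_iff_eq, m1]
  refine ⟨⟨fun p q e => cv.1 _ _ e.1, fun u v w e a b d => ?_⟩, fun _ _ e => e.1, fun p q c t n => ?_⟩
  · have := cv.2 u v w e.1 a b d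
    exact ⟨this, fun p q c i k => h1 _ _ c i u v (by rw [r1, r1, ← e.1, ← this]; tauto) w this b d (e.2 p q c i (this ▸ k))⟩
  · simp only [not_forall, not_not] at n
    obtain ⟨y, ⟨u, u', u1, u2, u3, u4⟩, v, v', v1, v2, v3, v4⟩ := n
    have o1 := cv.1 _ _ (r1 p)
    have o2 := cv.1 _ _ (r1 q)
    obtain ⟨⟨ε, a⟩, b⟩ := h2 (r p) (r q) c (by simpa only [Tt, r1, o1] using t) u u' v v' y (by rw [r1, u1.1]) (by rw [r1, u2.1])
      (by rw [r1, v1.1]) (by rw [r1, v2.1]) (o1 ▸ u3) (o1 ▸ u4) (o2 ▸ v3) (o2 ▸ v4)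
      (fun i => (u1.2 p q c i (.inl u1.1)).trans (u2.2 p q c i (.inl u2.1)).symm)
      (fun i => (v1.2 p q c i (.inr v1.1)).trans (v2.2 p q c i (.inr v2.1)).symm)
    have k : ∀ w, (l w = l q ∧ ∀ p q' c i, l w = l p ∨ l w = l q' → (θ (r p) (r q') c i w ↔ θ (r p) (r q') c i q)) →
      ∀ i, θ (r p) (r q) c i w ↔ θ (r p) (r q) c i v := fun w e i =>
        (e.2 p q c i (.inr e.1)).trans (v1.2 p q c i (.inr v1.1)).symm
    exact ⟨⟨ε, fun w w' e f => o2 ▸ a w w' (k w e) (k w' f)⟩, fun w e => by simpa only [r1] using b w (k w e)⟩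

theorem inner (N g : ℕ) : ∃ N', ∀ (ι : Type) [Finite ι] (o : ι → K) (x : ι → K → ℤ) (l : ι → Fin N) (A : ι → Prop) (c₀ : K),
    Ch o x → Cv o x l → (∀ p q, l p = l q → A p → A q) → ∃ (l' : ι → Fin N') (X : ι → Prop), Cv o x l' ∧
      (∀ p q, l' p = l' q → l p = l q) ∧ (∀ p q, l' p = l' q → X p → X q) ∧ (∀ p, A p → o p = c₀ → X p) ∧ ∀ p, X p → A p ∧
        ∃ C : Finset K, c₀ ∈ C ∧ (∀ c ∈ C, Tt o x l' p c ∧ ∀ q, o q = c → A q → ¬ X q →
          (∀ u v, l' u = l' p → l' v = l' q → x u c < x v c) ∨ ∀ u v, l' u = l' p → l' v = l' q → x v c < x u c) ∧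
          (g ≤ C.card ∨ ∀ q, A q → ¬ X q → Sf o x l' p q) := by
  induction g with
  | zero =>
    refine ⟨N, fun ι _ o x l A c h cv a => ⟨l, fun p => A p ∧ o p = c, cv, fun _ _ => id, fun p q e k =>
      ⟨a p q e k.1, cv.1 _ _ e ▸ k.2⟩, fun _ => And.intro, fun p k => ⟨k.1, {c}, by simp, ?_, .inl (by simp)⟩⟩⟩
    simp only [Finset.mem_singleton, forall_eq]
    exact ⟨⟨true, fun u v _ _ => by simp [sg, k.2]⟩, fun q a b n => (n ⟨b, a⟩).elim⟩
  | succ g ih =>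
    obtain ⟨N1, ih⟩ := ih
    obtain ⟨N2, rd⟩ := round (K := K) N1
    refine ⟨N2, fun ι _ o x l A c₀ h cv a => ?_⟩
    obtain ⟨l1, X, c1, r1, x1, x2, x3⟩ := ih ι o x l A c₀ h cv a
    obtain ⟨l2, c2, r2, st⟩ := rd ι o x l1 h c1
    refine ⟨l2, fun q => X q ∨ A q ∧ ∃ p, X p ∧ ¬ Sf o x l2 p q, c2, fun p q e => r1 _ _ (r2 _ _ e), fun p q e k =>
      k.imp (x1 _ _ (r2 _ _ e)) fun ⟨b, u, d, f⟩ => ⟨a _ _ (r1 _ _ (r2 _ _ e)) b, u, d, fun s => f (s.congr c2 e)⟩,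
      fun p b d => .inl (x2 p b d), fun q k => ?_⟩
    by_cases n : X q
    · obtain ⟨b, C, d, e, -⟩ := x3 q n
      refine ⟨b, C, d, fun c hc => ⟨(e c hc).1.mono r2, fun p f i j => ((e c hc).2 p f i fun m => j (.inl m)).imp
        (fun t u v y z => t u v (r2 _ _ y) (r2 _ _ z)) fun t u v y z => t u v (r2 _ _ y) (r2 _ _ z)⟩,
        .inr fun p i j => by_contra fun m => j (.inr ⟨i, q, n, m⟩)⟩
    obtain ⟨b, p, d, e⟩ := k.resolve_left n
    obtain ⟨-, C, f, i, j⟩ := x3 p d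
    have j := j.resolve_right fun j => e ((j q b n).mono r2)
    have m : o q ∉ C := fun m => e (Sf.mono r2 ?_)
    · refine ⟨b, insert (o q) C, Finset.mem_insert_of_mem f, Finset.forall_mem_insert _ _ _ |>.2 ⟨⟨⟨true, fun u v _ _ => rfl⟩,
        fun w s t y => ?_⟩, fun c hc => ⟨(st p q c (i c hc).1 e).1, fun w s t y => ?_⟩⟩, .inl (by rw [Finset.card_insert_of_notMem m]; omega)⟩
      · have z : l2 w ≠ l2 q := fun z => y (.inr ⟨t, p, d, fun s => e (s.congr c2 z.symm)⟩)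
        by_contra! k
        obtain ⟨⟨u, v, k1, k2, k3⟩, u', v', k4, k5, k6⟩ := k
        have o1 := c2.1 _ _ k1
        have o2 := (c2.1 _ _ k2).trans s
        have o3 := c2.1 _ _ k4
        have o4 := (c2.1 _ _ k5).trans s
        rcases le_total (x u (o q)) (x v' (o q)) with k | k
        · exact z (k2.symm.trans ((c2.2 v v' u (k2.trans k5.symm) (o1.trans o2.symm) (o2 ▸ k3) (o2 ▸ k)).symm.trans k1))
        · exact z (k5.symm.trans ((c2.2 u' u v' (k4.trans k1.symm) (o4.trans o3.symm) (o3 ▸ k6) (o3 ▸ k)).trans k4))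
      · refine ((i c hc).2 w s t fun m => y (.inl m)).imp (fun k u v k1 k2 => ?_) fun k u v k1 k2 => ?_ <;>
          obtain ⟨a, b, k3, k4, k5, k6⟩ := (st p q c (i c hc).1 e).2 u k1
        exacts [k6.trans_lt (k b v k4 (r2 _ _ k2)), (k a v k3 (r2 _ _ k2)).trans_le k5]
    · rintro y ⟨u, u', k1, k2, k3, k4⟩ ⟨v, v', k5, k6, k7, k8⟩
      obtain ⟨⟨ε, s⟩, t⟩ := i _ m
      have := s u u' k1 k2
      have := k3 (o q); have := k4 (o q); have := k7 (o q); have := k8 (o q)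
      rcases t q rfl b n with t | t
      · have := t u v k1 k5; have := t u' v k2 k5; cases ε <;> simp [sg] at * <;> omega
      · have := t u v' k1 k6; have := t u' v' k2 k6; cases ε <;> simp [sg] at * <;> omega

theorem outer (J : Finset K) : ∃ N, ∀ (ι : Type) [Finite ι] (o : ι → K) (x : ι → K → ℤ), Ch o x →
    ∃ (l : ι → Fin N) (κ : ι → Option K), Cv o x l ∧ (∀ p q, l p = l q → κ p = κ q) ∧ (∀ p, o p ∈ J → κ p ≠ none) ∧
      (∀ p c, κ p = some c → Tt o x l p c) ∧ ∀ p q, κ p ≠ κ q → Sf o x l p q := by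
  induction J using Finset.induction_on with
  | empty => exact ⟨_, fun ι _ o x h => ⟨fun p => Fintype.equivFin K (o p), fun _ => none, by simp +contextual [Cv], by simp⟩⟩
  | insert c J _ ih =>
    obtain ⟨N1, ih⟩ := ih
    obtain ⟨N2, st⟩ := inner (K := K) N1 (Fintype.card K + 1)
    refine ⟨N2, fun ι _ o x h => ?_⟩
    obtain ⟨l, κ, c1, k1, k2, k3, k4⟩ := ih ι o x h
    obtain ⟨l', X, c2, r, x1, x2, x3⟩ := st ι o x l (κ · = none) c h c1 fun p q e a => k1 p q e ▸ a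
    have s : ∀ p q, X p → ¬ X q → Sf o x l' p q := fun p q a b => by
      obtain ⟨d, C, -, -, e⟩ := x3 p a
      by_cases f : κ q = none
      exacts [e.resolve_left (C.card_le_univ.trans_lt (Nat.lt_succ_self _)).not_ge q f b,
        (k4 p q (d ▸ Ne.symm f)).mono r]
    refine ⟨l', fun p => if X p then some c else κ p, c2, fun p q e => ?_, fun p a => ?_, fun p d a => ?_, fun p q a => ?_⟩
    · exact if_congr ⟨x1 p q e, x1 q p e.symm⟩ rfl (k1 p q (r p q e))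
    · beta_reduce; split_ifs with b
      · simp
      · exact fun e => (Finset.mem_insert.1 a).elim (fun f => b (x2 p e f)) fun f => k2 p f e
    · beta_reduce at a; split_ifs at a with b
      · obtain ⟨-, C, e, f, -⟩ := x3 p b
        exact Option.some.inj a ▸ (f c e).1
      · exact (k3 p d a).mono r
    · beta_reduce at a; split_ifs at a with b d d
      exacts [(a rfl).elim, s p q b d, (s q p d b).symm, (k4 p q a).mono r]

end Pool.Agent.H.MP_74cd3a_lc
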