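import Pool.Agent.H.MP_74cd3a_lc.A
import Pool.Agent.H.MP_bc7fec_lc.C

namespace Pool.Agent.H.MP_74cd3a_lc

open Classical Relation Set Pool.Agent.H.MP_bc7fec_lc Pool.Agent.Lib.CX

section
variable {Z : Type} [DecidableEq Z] (A fin : Z → Prop) (st nd : Z → ℤ) (nx Cf : Z → Z → Prop)

def Gm (σ τ : List Z) : Prop := (∀ y ∈ σ, ∀ z ∈ σ, ¬ Cf y z) ∧ ∃ z ∈ σ, (∀ y ∈ σ, fin y ∨ nd z ≤ nd y) ∧
  ∃ y ∈ τ, A y ∧ nx z y ∧ τ = σ.map fun w => if w = z then y else w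

def Pw (W : Set Z) (z : Z) : Prop := ∃ y ∈ W, fin y ∧ ReflTransGen (fun a b => a ∈ W ∧ nx a b) z y

variable {A fin st nd nx Cf}

theorem gm (hA : {z | A z}.Finite) (h1 : ∀ y z, A y → nx y z → ¬ fin y ∧ st y < nd y ∧ st z = nd y)
    (h2 : ∀ y z, A y → A z → Cf y z → st y = st z) (σ : List Z) (hσ : ∀ z ∈ σ, A z) :
    (∃ W : Set Z, (∀ z ∈ W, A z) ∧ (∀ y ∈ W, ∀ z ∈ W, ¬ Cf y z) ∧ ∀ z ∈ σ, z ∈ W ∧ Pw fin nx W z) ↔
      ∃ τ, ReflTransGen (Gm A fin nd nx Cf) σ τ ∧ (∀ y ∈ τ, ∀ z ∈ τ, ¬ Cf y z) ∧ ∀ z ∈ τ, fin z := by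
  refine ⟨?_, ?_⟩
  · rintro ⟨W, w1, w2, w3⟩
    obtain ⟨B, hB⟩ := (hA.image st).bddAbove
    induction hn : (σ.map fun z => (B - st z).toNat).sum using Nat.strong_induction_on generalizing σ with
    | _ n ih =>
    by_cases f : ∀ z ∈ σ, fin z
    · exact ⟨σ, .refl, fun y a z b => w2 y (w3 y a).1 z (w3 z b).1, f⟩
    obtain ⟨z, ⟨z1, z2⟩, z3⟩ := exists_min_image {z | z ∈ σ ∧ ¬ fin z} nd (σ.finite_toSet.subset fun _ h => h.1)
      (by simpa [Set.Nonempty] using f)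
    obtain ⟨e, e1, e2, e3⟩ := (w3 z z1).2
    obtain ⟨y, ⟨-, y1⟩, y2⟩ := e3.cases_head.resolve_left fun h => z2 (h ▸ e2)
    have y3 : y ∈ W := y2.cases_head.elim (· ▸ e1) fun ⟨_, h, _⟩ => h.1
    have k : ∀ w ∈ σ.map fun w => if w = z then y else w, w = y ∨ w ∈ σ := List.forall_mem_map.2 fun w h => by
      split_ifs; exacts [.inl rfl, .inr h]
    obtain ⟨τ, t1, t2⟩ := ih _ (by
        rw [← hn, List.map_map]
        have := h1 z y (hσ z z1) y1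
        have := hB ⟨y, w1 y y3, rfl⟩
        refine List.sum_lt_sum _ _ (fun w _ => ?_) ⟨z, z1, by simp; omega⟩
        by_cases e : w = z <;> simp [e]; omega) _
      (fun w h => (k w h).elim (· ▸ w1 y y3) (hσ w)) (fun w h => (k w h).elim (· ▸ ⟨y3, e, e1, e2, y2⟩) (w3 w)) rfl
    exact ⟨τ, .head ⟨fun y a z b => w2 y (w3 y a).1 z (w3 z b).1, z, z1, fun w h => (Classical.em _).imp id fun n => z3 w ⟨h, n⟩,
      y, List.mem_map.2 ⟨z, z1, by exact if_pos rfl⟩, w1 y y3, y1, rfl⟩ t1, t2⟩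
  · rintro ⟨τ, a, b, c⟩
    suffices ∃ W : Set Z, (∀ z ∈ W, A z) ∧ (∀ y ∈ W, ∀ z ∈ W, ¬ Cf y z) ∧ (∀ z ∈ σ, z ∈ W ∧ Pw fin nx W z) ∧
      ∀ y ∈ W, y ∈ σ ∨ ∃ z ∈ σ, ¬ fin z ∧ nd z ≤ st y by obtain ⟨W, a, b, c, -⟩ := this; exact ⟨W, a, b, c⟩
    induction a using ReflTransGen.head_induction_on with
    | refl => exact ⟨{z | z ∈ τ}, hσ, b, fun z h => ⟨h, z, h, c z h, .refl⟩, fun _ => .inl⟩
    | @head σ ρ v _ ih =>
      obtain ⟨v1, z, z1, z2, y, y0, y1, y2, rfl⟩ := v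
      have k : ∀ w ∈ σ.map fun w => if w = z then y else w, w = y ∨ w ∈ σ := List.forall_mem_map.2 fun w h => by
        split_ifs; exacts [.inl rfl, .inr h]
      obtain ⟨W, w1, w2, w3, w4⟩ := ih fun w h => (k w h).elim (· ▸ y1) (hσ w)
      obtain ⟨g1, g2, g3⟩ := h1 z y (hσ z z1) y2
      have m : ∀ w ∈ W, w ∈ σ ∨ nd z ≤ st w := fun w h => by
        rcases w4 w h with i | ⟨u, i, j, l⟩
        · exact (k w i).elim (fun e => .inr (e ▸ g3.ge)) .inl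
        obtain ⟨e, -, e2, e3⟩ := (w3 u i).2
        obtain ⟨u', ⟨q, u1⟩, -⟩ := e3.cases_head.resolve_left fun h => j (h ▸ e2)
        have := h1 u u' (w1 u q) u1
        refine .inr ((k u i).elim (fun e => by subst e; omega) fun e => ((z2 u e).resolve_left j).trans l)
      have mo : ∀ w, Pw fin nx W w → Pw fin nx (insert z W) w := fun w ⟨e, e1, e2, e3⟩ =>
        ⟨e, .inr e1, e2, ReflTransGen.mono (fun _ _ h => ⟨.inr h.1, h.2⟩) _ _ e3⟩
      refine ⟨insert z W, forall_mem_insert.2 ⟨hσ z z1, w1⟩, ?_, fun w h => ?_, forall_mem_insert.2 ⟨.inl z1, fun w h =>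
        (m w h).imp id fun e => ⟨z, z1, g1, e⟩⟩⟩
      · rintro u (rfl | i) w (rfl | j)
        exacts [v1 _ z1 _ z1, fun f => (m w j).elim (fun e => v1 _ z1 _ e f) fun e => by
          have := h2 _ _ (hσ _ z1) (w1 _ j) f; omega, fun f => (m u i).elim (fun e => v1 _ e _ z1 f) fun e => by
          have := h2 _ _ (w1 _ i) (hσ _ z1) f; omega, w2 u i w j]
      · by_cases e : w = z
        · obtain ⟨u, u1, u2, u3⟩ := mo y (w3 y y0).2
          subst e; exact ⟨.inl rfl, u, u1, u2, .head ⟨.inl rfl, y2⟩ u3⟩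
        · exact (w3 w (List.mem_map.2 ⟨w, h, if_neg e⟩)).imp .inr (mo w)
end

section
variable {D V : Type} {t h : D → V} {S : Set D} {x y : V}

theorem walk [Inhabited D] (e : R t h S x y) : ∃ (n : ℕ) (w : ℕ → V) (f : ℕ → D), w 0 = x ∧ w n = y ∧
    ∀ i < n, f i ∈ S ∧ t (f i) = w i ∧ h (f i) = w (i + 1) := by
  induction e using ReflTransGen.head_induction_on with
  | refl => exact ⟨0, fun _ => y, default, rfl, rfl, by simp⟩
  | @head a _ b _ ih =>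
    obtain ⟨d, b, rfl, rfl⟩ := b
    obtain ⟨n, w, f, c, e, g⟩ := ih
    exact ⟨n + 1, fun i => i.casesOn (t d) w, fun i => i.casesOn d f, rfl, e, fun i k => by
      cases i; exacts [⟨b, rfl, c.symm⟩, g _ (by omega)]⟩

theorem frc {d} (e : R t h S x y) (n : ¬ R t h (S \ {d}) x y) : R t h (S \ {d}) x (t d) ∧ R t h (S \ {d}) (h d) y := by
  have k : ∀ {t h : D → V} {x y}, R t h S x y → R t h (S \ {d}) x y ∨ R t h (S \ {d}) x (t d) := fun e => by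
    induction e with
    | refl => exact .inl .refl
    | tail _ b ih =>
      obtain ⟨f, a, rfl, rfl⟩ := b
      by_cases m : f = d
      exacts [.inr (ih.elim (m ▸ ·) id), ih.imp_left (·.trans (R.one ⟨a, m⟩))]
  exact ⟨(k e).resolve_left n, ((k e.swap).resolve_left fun m => n m.swap).swap⟩

theorem lf {t' h' : D → V} {T : Set D} (k : ∀ d ∈ S, R t' h' T (t d) (h d)) (e : R t h S x y) : R t' h' T x y := by
  induction e with
  | refl => exact .refl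
  | tail _ b ih => obtain ⟨d, a, rfl, rfl⟩ := b; exact ih.trans (k d a)

theorem rob {r : D → D} (r0 : ∀ d, r (r d) = d) (r1 : ∀ d, t (r d) = h d) (r2 : ∀ d, h (r d) = t d) (hS : S.Finite)
    (sy : ∀ d ∈ S, r d ∈ S) (P : Set (V × V)) (p1 : ∀ p ∈ P, R t h S p.1 p.2)
    (p2 : ∀ p ∈ P, ∀ q ∈ P, ∀ d ∈ S, R t h (S \ {d}) p.1 p.2 ∨ R t h (S \ {r d}) q.1 q.2) :
    ∃ O ⊆ S, (∀ d ∈ O, r d ∉ O) ∧ ∀ p ∈ P, R t h O p.1 p.2 := by
  obtain ⟨A, ⟨a1, a2, a3⟩, a4⟩ := (hS.finite_subsets.subset fun A (h : A ⊆ S ∧ (∀ d ∈ S, R t h A (t d) (h d)) ∧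
    ∀ d ∈ S, d ∈ A ∨ r d ∈ A) => h.1).exists_minimal ⟨S, le_rfl, fun _ => R.one, fun _ => .inl⟩
  have cr : ∀ d ∈ A, r d ∈ A → r d ≠ d → ¬ R t h (A \ {d}) (t d) (h d) := fun d a b n e =>
    (a4 (y := A \ {d}) ⟨sdiff_subset.trans a1, fun f c => lf (fun g k => by
      by_cases m : g = d
      exacts [m ▸ e, R.one ⟨k, m⟩]) (a2 f c), fun f c => by
        by_cases m : f = d
        · subst m; exact .inr ⟨b, n⟩
        by_cases m' : r f = d
        exacts [.inl ⟨by rw [← r0 f, m']; exact b, m⟩, (a3 f c).imp (⟨·, m⟩) (⟨·, m'⟩)]⟩ sdiff_subset a).2 rfl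
  have br : ∀ d ∈ A, r d ∈ A → r d ≠ d → ¬ R t h (S \ {d}) (t d) (h d) := fun d a b n e => by
    have c1 : ¬ R t h ((A \ {d}) \ {r d}) (t d) (h d) := fun e => cr d a b n (e.mono sdiff_subset)
    have c2 : ¬ R t h ((A \ {d}) \ {r d}) (h d) (t d) := fun e => cr _ b (by rwa [r0]) (by rw [r0]; exact n.symm)
      (by rw [r1, r2]; exact e.mono fun _ h => ⟨h.1.1, h.2⟩)
    have c3 : ∀ v, R t h A (t d) v → R t h ((A \ {d}) \ {r d}) (t d) v ∨ R t h ((A \ {d}) \ {r d}) (h d) v := fun v e => by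
      induction e with
      | refl => exact .inl .refl
      | tail _ b ih =>
        obtain ⟨f, c, rfl, rfl⟩ := b
        by_cases m : f = d
        · exact .inr (m ▸ .refl)
        by_cases m' : f = r d
        exacts [.inl (by rw [m', r2]; exact .refl), ih.imp (·.trans (R.one ⟨⟨c, m⟩, m'⟩)) (·.trans (R.one ⟨⟨c, m⟩, m'⟩))]
    have c4 : ∀ v, R t h ((A \ {d}) \ {r d}) (t d) v → ¬ R t h ((A \ {d}) \ {r d}) (h d) v := fun v e f => by
      have g : R t h A v (t d) := (lf (fun g k => by simpa only [r1, r2] using (a2 _ (sy g (a1 k.1.1))).swap) e).swap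
      by_cases m : R t h (A \ {d}) v (t d)
      · by_cases m' : R t h ((A \ {d}) \ {r d}) v (t d)
        exacts [c2 (f.trans m'), c1 (e.trans (r1 d ▸ (frc m m').1))]
      · exact m (frc g m).1
    refine c1 ?_
    generalize hz : h d = z at e ⊢
    clear hz
    induction e with
    | refl => exact .refl
    | tail _ b ih =>
      obtain ⟨f, c, rfl, rfl⟩ := b
      have m : f ≠ r d := fun m => c1 (by rwa [m, r1] at ih)
      refine (a3 f c.1).elim (fun k => ih.trans (R.one ⟨⟨k, c.2⟩, m⟩)) fun k =>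
        (c3 _ ((ih.mono fun _ h => h.1.1).trans (a2 f c.1))).elim id fun q => (c4 _ ih (q.trans ?_)).elim
      exact .single ⟨r f, ⟨⟨k, fun e => m (by rw [← r0 f, e])⟩, fun e => c.2 (by rw [← r0 f, e, r0]; rfl)⟩, r1 f, r2 f⟩
  have k : ∀ p : P, ∃ Q ⊆ A, R t h Q p.1.1 p.1.2 ∧ ∀ d ∈ Q, r d ∈ A → r d ∉ Q ∧ ¬ R t h (S \ {d}) p.1.1 p.1.2 := fun p => by
    obtain ⟨Q, q1, q2, q3, -⟩ := (lf a2 (p1 p p.2)).path r1 r2
    obtain ⟨M, ⟨m1, m2⟩, m3⟩ := (hS.finite_subsets.subset fun M (h : M ⊆ Q ∧ R t h M p.1.1 p.1.2) =>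
      h.1.trans (q1.trans a1)).exists_minimal ⟨Q, le_rfl, q2⟩
    refine ⟨M, m1.trans q1, m2, fun d a b => ⟨fun e => q3 d (m1 a) (m1 e), fun e => ?_⟩⟩
    obtain ⟨f1, f2⟩ := frc m2 fun e => (m3 (y := M \ {d}) ⟨sdiff_subset.trans m1, e⟩ sdiff_subset a).2 rfl
    have g : ∀ f ∈ M \ {d}, R h t (S \ {d}) (t f) (h f) := fun f c => by
      simpa only [r1, r2] using R.one (t := h) (h := t) (show r f ∈ S \ {d} from ⟨sy f (a1 (q1 (m1 c.1))), fun e =>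
        q3 f (m1 c.1) (e ▸ m1 a)⟩)
    exact br d (q1 (m1 a)) b (fun e => q3 d (m1 a) (e.symm ▸ m1 a)) (((lf g f1).swap.trans e).trans (lf g f2).swap)
  choose Q q1 q2 q3 using k
  refine ⟨⋃ p, Q p, iUnion_subset fun p => (q1 p).trans a1, fun d a b => ?_, fun p hp => (q2 ⟨p, hp⟩).mono (subset_iUnion _ _)⟩
  obtain ⟨p, a⟩ := mem_iUnion.1 a
  obtain ⟨q, b⟩ := mem_iUnion.1 b
  exact (p2 p p.2 q q.2 d (a1 (q1 p a))).elim (q3 p d a (q1 q b)).2 (q3 q _ b ((r0 d).symm ▸ q1 p a)).2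
end

end Pool.Agent.H.MP_74cd3a_lc
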