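import Pool.Agent.H.MP_74cd3a_lc.B

namespace Pool.Agent.H.MP_74cd3a_lc

open Classical Relation Set Pool.Agent.H.MP_bc7fec_lc Pool.Agent.Lib.CX

variable {D V K : Type}

abbrev Pc (K V : Type) := K × K × Bool × V × V
abbrev El (K V D : Type) := Pc K V × V × V × Option D

def Lp (ε : Bool) (b : K) (u v : K → ℤ) : Prop := ∀ c, v c - u c ≤ sg ε (v b - u b) ∧ u c - v c ≤ sg ε (v b - u b)
def sw (t h : D → V) (ε : Bool) (d : D) : V := if ε then t d else h d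

theorem Lp.trans {ε} {b : K} {u v w : K → ℤ} (h : Lp ε b u v) (g : Lp ε b v w) : Lp ε b u w := fun c => by
  have := h c; have := g c; cases ε <;> simp [sg] at * <;> omega
theorem Lp.refl {ε} {b : K} {u : K → ℤ} : Lp ε b u u := fun c => by cases ε <;> simp [sg]

section
variable (t h : D → V) (r : D → D) (ℓ : D → ℤ) (S Z : List D) (U : List V) (x : V → K → ℤ) (s τ : K → V)
  (F : List D) (Q : List (Pc K V)) (σ : List (El K V D))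

def Tg (b : K) (d : D) : Prop := x (h d) b = x (t d) b + ℓ d
def Hp (π : Pc K V) (y : K → ℤ) : Prop := Lp π.2.2.1 π.1 (x π.2.2.2.1) y ∧ Lp π.2.2.1 π.1 y (x π.2.2.2.2)
def Vl (z : El K V D) : Prop := z.1 ∈ Q ∧ z.2.1 ∈ U ∧ z.2.2.1 ∈ U ∧
  R (sw t h z.1.2.2.1) (sw h t z.1.2.2.1) {d | d ∈ Z} z.2.1 z.2.2.1 ∧ Lp z.1.2.2.1 z.1.1 (x z.1.2.2.2.1) (x z.2.1) ∧
  (z.2.2.2 = none ∧ z.2.2.1 = z.1.2.2.2.2 ∨ ∃ d ∈ S, z.2.2.2 = some d ∧ Tg t h ℓ x z.1.1 d ∧ 0 < ℓ d ∧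
    sw t h z.1.2.2.1 d = z.2.2.1 ∧ ¬ r d ∈ F ∧ Lp z.1.2.2.1 z.1.1 (x (sw h t z.1.2.2.1 d)) (x z.1.2.2.2.2))
def Fi (z : El K V D) : Prop := z.2.2.2 = none
def St (z : El K V D) : ℤ := x z.2.1 z.1.2.1
def Nd (z : El K V D) : ℤ := (z.2.2.2.map fun d => x (sw h t z.1.2.2.1 d) z.1.2.1).getD 0
def Nx (y z : El K V D) : Prop := z.1 = y.1 ∧ ∃ d ∈ S, y.2.2.2 = some d ∧ z.2.1 = sw h t y.1.2.2.1 d
def Cf (y z : El K V D) : Prop := (∃ d ∈ Z, ¬ R (sw t h y.1.2.2.1) (sw h t y.1.2.2.1) ({d | d ∈ Z} \ {d}) y.2.1 y.2.2.1 ∧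
  ¬ R (sw t h z.1.2.2.1) (sw h t z.1.2.2.1) ({d | d ∈ Z} \ {r d}) z.2.1 z.2.2.1) ∨
  ∃ d ∈ S, y.2.2.2 = some d ∧ z.2.2.2 = some (r d)
def Jp (b : K) (u v : V) : Prop := u ∈ U ∧ v ∈ U ∧ ((∃ π ∈ Q, π.1 = b ∧ sw (·.1) (·.2) π.2.2.1 π.2.2.2 = u ∧
  sw (·.2) (·.1) π.2.2.1 π.2.2.2 = v) ∨ ∃ d ∈ F, Tg t h ℓ x b d ∧ t d = u ∧ h d = v)
def Ct : Prop := (∀ d ∈ F, d ∈ S ∧ 0 < ℓ d ∧ ¬ r d ∈ F) ∧ (∀ π ∈ Q, π.2.2.2.1 ∈ U ∧ π.2.2.2.2 ∈ U ∧
  x π.2.2.2.2 π.2.1 - x π.2.2.2.1 π.2.1 = sg π.2.2.1 (x π.2.2.2.2 π.1 - x π.2.2.2.1 π.1) ∧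
  (∃ z ∈ σ, z.1 = π ∧ z.2.1 = π.2.2.2.1) ∧ ∀ ρ ∈ Q, π.2.1 = ρ.2.1 ∨ ∀ d ∈ S, ¬ (Hp x π (x (t d)) ∧ Hp x ρ (x (t d)))) ∧
  (∀ z ∈ σ, Vl t h r ℓ S Z U x F Q z) ∧ ∀ b, ReflTransGen (Jp t h ℓ U x F Q b) (s b) (τ b)
def Gs : Prop := ∃ W : Set (El K V D), (∀ z ∈ W, Vl t h r ℓ S Z U x F Q z) ∧ (∀ y ∈ W, ∀ z ∈ W, ¬ Cf t h r S Z y z) ∧
  ∀ z ∈ σ, z ∈ W ∧ Pw Fi (Nx t h S) W z
def Or : Prop := ∃ O ⊆ {d | d ∈ S}, (∀ d ∈ O, r d ∉ O) ∧ ∀ b, R t h {d ∈ O | Tg t h ℓ x b d} (s b) (τ b)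

def Ws (O : Set D) : Set (El K V D) := {z | Vl t h r ℓ S Z U x F Q z ∧
  R (sw t h z.1.2.2.1) (sw h t z.1.2.2.1) (O ∩ {d | d ∈ Z}) z.2.1 z.2.2.1 ∧ ∀ d, z.2.2.2 = some d → d ∈ O}

structure Hy : Prop where
  r0 : ∀ d, r (r d) = d
  r1 : ∀ d, t (r d) = h d
  r2 : ∀ d, h (r d) = t d
  r3 : ∀ d, ℓ (r d) = ℓ d
  sy : ∀ d ∈ S, r d ∈ S
  z : ∀ d, d ∈ Z ↔ d ∈ S ∧ ℓ d = 0
  l : ∀ d ∈ S, ∀ c, x (h d) c ≤ x (t d) c + ℓ d
  u : ∀ d ∈ S, h d ∈ U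
  s : ∀ b, s b ∈ U

variable {t h r ℓ S Z U x s τ F Q σ}

theorem sw_iff {ε T u v} : R (sw t h ε) (sw h t ε) T u v ↔ R t h T (sw (·.1) (·.2) ε (u, v)) (sw (·.2) (·.1) ε (u, v)) := by
  cases ε
  exacts [⟨R.swap, R.swap⟩, .rfl]

variable (H : Hy t h r ℓ S Z U x s)
include H

theorem Hy.l' {d} (a : d ∈ S) (c) : x (t d) c ≤ x (h d) c + ℓ d := by
  simpa only [H.r1, H.r2, H.r3] using H.l _ (H.sy d a) c

theorem Hy.zero {ε T u v} (a : T ⊆ {d | d ∈ Z}) (e : R (sw t h ε) (sw h t ε) T u v) : x u = x v := funext fun c =>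
  e.eq (ρ := (x · c)) fun d k => by
    have := (H.z d).1 (a k); have := H.l d this.1 c; have := H.l' ‹_ ∧ _›.1 c
    cases ε <;> simp [sw] <;> omega

theorem Hy.lp {ε b d} (a : d ∈ S) (e : Tg t h ℓ x b d) : Lp ε b (x (sw t h ε d)) (x (sw h t ε d)) := fun c => by
  have := H.l d a c; have := H.l' a c; unfold Tg at e
  cases ε <;> simp [sw, sg] <;> omega

theorem Hy.vl (C : Ct t h r ℓ S Z U x s τ F Q σ) {z} (a : Vl t h r ℓ S Z U x F Q z) : Hp x z.1 (x z.2.1) ∧ ∀ d, z.2.2.2 = some d →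
    (Hp x z.1 (x (t d)) ∧ Hp x z.1 (x (h d))) ∧ 0 < ℓ d ∧ x (sw t h z.1.2.2.1 d) = x z.2.1 ∧ x (sw h t z.1.2.2.1 d) z.1.2.1 = x z.2.1 z.1.2.1 + ℓ d := by
  obtain ⟨a1, -, -, a2, a3, a4⟩ := a
  have e := H.zero le_rfl a2
  rcases a4 with ⟨a4, a5⟩ | ⟨d, a4, a5, a6, a7, a8, -, a9⟩
  · exact ⟨⟨a3, by rw [e, a5]; exact .refl⟩, by simp [a4]⟩
  have f := H.lp (ε := z.1.2.2.1) a4 a6
  rw [a8, ← e] at f
  refine ⟨⟨a3, f.trans a9⟩, fun d' k => ?_⟩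
  obtain rfl := Option.some.inj (a5.symm.trans k)
  refine ⟨?_, a7, by rw [a8, e], ?_⟩
  · cases k : z.1.2.2.1 <;> simp only [Hp, k, sw] at * <;> simp at * <;> rw [a8, ← e]
    exacts [⟨⟨a3.trans f, a9⟩, a3, f.trans a9⟩, ⟨⟨a3, f.trans a9⟩, a3.trans f, a9⟩]
  · have := (C.2.1 _ a1).2.2.1
    have := a3 z.1.2.1; have := f z.1.2.1; have := a9 z.1.2.1
    have := congrFun e z.1.1
    unfold Tg at a6
    rw [← a8] at this
    cases k : z.1.2.2.1 <;> simp only [k, sw, sg] at * <;> simp at * <;> omega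

theorem Hy.g1 (C : Ct t h r ℓ S Z U x s τ F Q σ) (y z) (a : Vl t h r ℓ S Z U x F Q y) (b : Nx t h S y z) :
    ¬ Fi y ∧ St x y < Nd t h x y ∧ St x z = Nd t h x y := by
  obtain ⟨b1, d, -, b2, b3⟩ := b
  have := (H.vl C a).2 d b2
  simp only [Fi, St, Nd, b1, b2, b3]
  simp; omega

theorem Hy.g2 (C : Ct t h r ℓ S Z U x s τ F Q σ) (y z) (a : Vl t h r ℓ S Z U x F Q y) (b : Vl t h r ℓ S Z U x F Q z)
    (e : Cf t h r S Z y z) : St x y = St x z := by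
  have a1 := H.vl C a
  have b1 := H.vl C b
  have k := (C.2.1 _ a.1).2.2.2.2 _ b.1
  unfold St
  rcases e with ⟨d, d1, d2, d3⟩ | ⟨d, d1, d2, d3⟩
  · have d4 := H.zero (ε := true) le_rfl (R.one d1)
    have d5 := H.zero sdiff_subset (frc a.2.2.2.1 d2).1
    have d6 := H.zero sdiff_subset (frc b.2.2.2.1 d3).1
    have d7 : x y.2.1 = x (t d) := by cases k : y.1.2.2.1 <;> simp_all [sw]
    have d8 : x z.2.1 = x (t d) := by cases k : z.1.2.2.1 <;> simp_all [sw, H.r1, H.r2]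
    rw [d7, d8, k.resolve_right fun k => k d ((H.z d).1 d1).1 ⟨d7 ▸ a1.1, d8 ▸ b1.1⟩]
  · obtain ⟨a2, a3, a4, a5⟩ := a1.2 d d2
    obtain ⟨b2, b3, b4, b5⟩ := b1.2 _ d3
    have := k.resolve_right fun k => k d d1 ⟨a2.1, H.r2 d ▸ b2.2⟩
    have a4 := congrFun a4 y.1.2.1
    have b4 := congrFun b4 y.1.2.1
    rw [← this, H.r3] at b5
    rw [← this]
    cases k : y.1.2.2.1 <;> cases k' : z.1.2.2.1 <;> simp [sw, k, k', H.r1, H.r2] at a4 a5 b4 b5 <;> omega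

theorem Hy.snd (C : Ct t h r ℓ S Z U x s τ F Q σ) (G : Gs t h r ℓ S Z U x F Q σ) : Or t h r ℓ S x s τ := by
  obtain ⟨W, w1, w2, w3⟩ := G
  obtain ⟨O, o1, o2, o3⟩ := rob H.r0 H.r1 H.r2 Z.finite_toSet (fun d a => (H.z _).2 ⟨H.sy d ((H.z d).1 a).1,
    (H.r3 d).trans ((H.z d).1 a).2⟩) ((fun z => (sw (·.1) (·.2) z.1.2.2.1 (z.2.1, z.2.2.1), sw (·.2) (·.1) z.1.2.2.1 (z.2.1, z.2.2.1))) '' W)
    (forall_mem_image.2 fun z a => sw_iff.1 (w1 z a).2.2.2.1) (forall_mem_image.2 fun y a => forall_mem_image.2 fun z b d e =>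
      by_contra fun n => w2 y a z b (.inl ⟨d, e, fun k => n (.inl (sw_iff.1 k)), fun k => n (.inr (sw_iff.1 k))⟩))
  have p : ∀ d, (d ∈ F ∨ ∃ z ∈ W, z.2.2.2 = some d) → d ∈ S ∧ 0 < ℓ d ∧ r d ∉ F := by
    rintro d (a | ⟨z, a, b⟩)
    · exact C.1 d a
    · obtain ⟨f, c, e, -, g, -, i, -⟩ := (w1 z a).2.2.2.2.2.resolve_left (by simp [b])
      obtain rfl := Option.some.inj (e.symm.trans b)
      exact ⟨c, g, i⟩
  have q := fun d a => (H.z d).1 (o1 a)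
  refine ⟨{d | d ∈ O ∨ d ∈ F ∨ ∃ z ∈ W, z.2.2.2 = some d}, fun d a => a.elim (q d · |>.1) (p d · |>.1), ?_, fun b => ?_⟩
  · rintro d (a | a) (b | b)
    · exact o2 d a b
    · have := (q d a).2; have := (p _ b).2.1; rw [H.r3] at this; omega
    · have := (q _ b).2; have := (p _ a).2.1; rw [H.r3] at *; omega
    rcases b with b | ⟨z, b, c⟩
    · exact (p d a).2.2 b
    exact a.elim (fun a => (p _ (.inr ⟨z, b, c⟩)).2.2 (by rwa [H.r0])) fun ⟨y, a, e⟩ =>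
      w2 y a z b (.inr ⟨d, (p _ (.inr ⟨y, a, e⟩)).1, e, c⟩)
  have := C.2.2.2 b
  generalize τ b = v at this
  induction this with
  | refl => exact .refl
  | tail a0 a ih =>
    refine ih.trans ?_
    obtain ⟨-, -, ⟨π, a, rfl, rfl, rfl⟩ | ⟨d, a, e, rfl, rfl⟩⟩ := a
    swap
    · exact R.one ⟨.inr (.inl a), e⟩
    obtain ⟨z, c, rfl, e⟩ := (C.2.1 π a).2.2.2.1
    obtain ⟨y, y1, y2, y3⟩ := (w3 z c).2
    refine sw_iff.1 (e ▸ ?_)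
    have k : ∀ z ∈ W, R (sw t h z.1.2.2.1) (sw h t z.1.2.2.1) {d ∈ {d | d ∈ O ∨ d ∈ F ∨ ∃ z ∈ W, z.2.2.2 = some d} |
        Tg t h ℓ x z.1.1 d} z.2.1 z.2.2.1 := fun z a => sw_iff.2 ((o3 _ (mem_image_of_mem _ a)).mono fun d b => ⟨.inl b, by
      have := q d b; have := H.l d this.1 z.1.1; have := H.l' ‹_ ∧ _›.1 z.1.1; unfold Tg; omega⟩)
    clear c e a ih a0
    induction y3 using ReflTransGen.head_induction_on with
    | refl => exact ((w1 y y1).2.2.2.2.2.resolve_right fun ⟨_, _, e, _⟩ => by simp [show y.2.2.2 = none from y2] at e).2 ▸ k y y1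
    | @head z z' a _ ih =>
      obtain ⟨a, b, d, -, c, e⟩ := a
      obtain ⟨f, -, g, i, -, j, -⟩ := (w1 z a).2.2.2.2.2.resolve_left (by simp [c])
      obtain rfl := Option.some.inj (g.symm.trans c)
      rw [b, e] at ih
      exact (k z a).trans (.head ⟨f, ⟨.inr (.inr ⟨z, a, c⟩), i⟩, j, rfl⟩ ih)

theorem Hy.go {O : Set D} (o1 : O ⊆ {d | d ∈ S}) (o2 : ∀ d ∈ O, r d ∉ O) (f : ∀ d ∈ F, d ∈ O) {π} (a : π ∈ Q) {u} (b : u ∈ U)
    (c : Lp π.2.2.1 π.1 (x π.2.2.2.1) (x u))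
    (e : R (sw t h π.2.2.1) (sw h t π.2.2.1) {d ∈ O | Tg t h ℓ x π.1 d} u π.2.2.2.2) :
    ∃ z ∈ Ws t h r ℓ S Z U x F Q O, z.1 = π ∧ z.2.1 = u ∧ Pw Fi (Nx t h S) (Ws t h r ℓ S Z U x F Q O) z := by
  obtain ⟨b0, c0, ε, a0, a1⟩ := π
  dsimp only at c e
  have n : ∀ d ∈ S, 0 ≤ ℓ d := fun d a => by have := H.l d a b0; have := H.l' a b0; omega
  have m : ∀ d ∈ {d ∈ O | Tg t h ℓ x b0 d}, sg ε (x (sw h t ε d) b0) = sg ε (x (sw t h ε d) b0) + ℓ d := fun d a => by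
    have := a.2; unfold Tg at this; cases ε <;> simp [sg, sw] <;> omega
  have m1 : ∀ d ∈ {d ∈ O | Tg t h ℓ x b0 d}, sg ε (x (sw t h ε d) b0) ≤ sg ε (x (sw h t ε d) b0) := fun d a => by
    have := m d a; have := n d (o1 a.1); omega
  have m2 : {d ∈ {d ∈ O | Tg t h ℓ x b0 d} | sg ε (x (sw t h ε d) b0) = sg ε (x (sw h t ε d) b0)} ⊆ O ∩ {d | d ∈ Z} :=
    fun d a => ⟨a.1.1, (H.z d).2 ⟨o1 a.1.1, by have := m d a.1; have := a.2; omega⟩⟩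
  have m3 : ∀ u v, R (sw t h ε) (sw h t ε) {d ∈ O | Tg t h ℓ x b0 d} u v → Lp ε b0 (x u) (x v) := fun u v e => by
    induction e with
    | refl => exact .refl
    | tail _ a ih => obtain ⟨d, a, rfl, rfl⟩ := a; exact ih.trans (H.lp (o1 a.1) a.2)
  have m4 : ∀ d ∈ S, ∀ ε, sw h t ε d ∈ U := fun d a ε => by
    cases ε; exacts [by simpa [sw, H.r2] using H.u _ (H.sy d a), H.u d a]
  have m5 : ∀ {T u v}, T ⊆ {d | d ∈ S} → R (sw t h ε) (sw h t ε) T u v → u ∈ U → v ∈ U := fun k e a => by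
    rcases e.cases_tail with e | ⟨_, -, d, e, -, g⟩
    exacts [e ▸ a, g ▸ m4 d (k e) ε]
  induction hn : (sg ε (x a1 b0) - sg ε (x u b0)).toNat using Nat.strong_induction_on generalizing u with
  | _ n ih =>
  rcases e.split (ρ := fun v => sg ε (x v b0)) m1 with g | ⟨d, d1, d2, d3, d4⟩
  · have g := g.mono m2
    have k : (_, u, a1, none) ∈ Ws t h r ℓ S Z U x F Q O :=
      ⟨⟨a, b, m5 (fun _ k => o1 k.1) g b, g.mono inter_subset_right, c, .inl ⟨rfl, rfl⟩⟩, g, by simp⟩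
    exact ⟨_, k, rfl, rfl, _, k, rfl, .refl⟩
  have d2 := d2.mono m2
  have d5 := H.zero inter_subset_right d2
  have d6 := d4.le (ρ := fun v => sg ε (x v b0)) m1
  obtain ⟨z, z1, z2, z3, y, y1, y2, y3⟩ := ih _ (by rw [← hn, d5]; omega) (m4 d (o1 d1.1) ε)
    (c.trans (d5 ▸ H.lp (o1 d1.1) d1.2)) d4 rfl
  have k : (_, u, _, some d) ∈ Ws t h r ℓ S Z U x F Q O := ⟨⟨a, b, m5 (fun _ k => o1 k.1) d2 b, d2.mono inter_subset_right, c, .inr ⟨d, o1 d1.1, rfl, d1.2,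
    by have := m d d1; omega, rfl, fun k => o2 d d1.1 (f _ k), m3 _ _ d4⟩⟩, d2,
    fun _ k => Option.some.inj k ▸ d1.1⟩
  exact ⟨_, k, rfl, rfl, y, y1, y2, .head ⟨k, z2, d, o1 d1.1, rfl, z3⟩ y3⟩
end

theorem cmp [Fintype K] : ∃ N, ∀ (D V : Type) [Inhabited D] (t h : D → V) r ℓ S Z U x (s τ : K → V), Hy t h r ℓ S Z U x s →
    Or t h r ℓ S x s τ → ∃ F Q σ, F.length ≤ N ∧ Q.length ≤ N ∧ σ.length ≤ N ∧ Ct t h r ℓ S Z U x s τ F Q σ ∧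
      Gs t h r ℓ S Z U x F Q σ := by
  obtain ⟨N, hN⟩ := outer (K := K) Finset.univ
  refine ⟨N, fun D V _ t h r ℓ S Z U x s τ H ⟨O, o1, o2, o3⟩ => ?_⟩
  choose n w f w0 wn wf using fun b => walk (o3 b)
  have w1 : ∀ b j, j ≤ n b → ∀ i ≤ j, R t h {d ∈ O | Tg t h ℓ x b d} (w b i) (w b j) := fun b j a i c => by
    induction c with
    | refl => exact .refl
    | step c ih => exact (ih (by omega)).tail ⟨_, wf b _ a⟩
  have w2 : ∀ b j, j ≤ n b → ∀ i ≤ j, Lip b (x (w b i)) (x (w b j)) := fun b j a i c => by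
    induction c with
    | refl => exact fun c => by simp
    | step c ih =>
      obtain ⟨d, e, g⟩ := wf b _ a
      exact (ih (by omega)).trans (e ▸ g ▸ H.lp (ε := true) (o1 d.1) d.2)
  have w3 : ∀ b j, j ≤ n b → ∀ i ≤ j, x (w b i) b ≤ x (w b j) b := fun b j a i c => by have := w2 b j a i c b; omega
  have w4 : ∀ b, ∀ i ≤ n b, w b i ∈ U := fun b i a => by
    cases i; exacts [w0 b ▸ H.s b, (wf b _ a).2.2 ▸ H.u _ (o1 (wf b _ a).1.1)]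
  have : Finite {p : K × ℕ // p.2 ≤ n p.1} := ((finite_univ.prod (finite_Iic (Finset.univ.sup n))).subset
    fun p (a : p.2 ≤ n p.1) => ⟨trivial, a.trans (Finset.le_sup (Finset.mem_univ _))⟩).to_subtype
  obtain ⟨l, κ, cv, k1, k2, k3, k4⟩ := hN {p : K × ℕ // p.2 ≤ n p.1} (·.1.1) (fun p => x (w p.1.1 p.1.2))
    (by rintro ⟨⟨b, i⟩, p⟩ ⟨⟨c, j⟩, q⟩ (rfl : b = c); exact (le_total i j).imp (w2 b j q i) (w2 b i p j))
  choose c hc using fun p => Option.ne_none_iff_exists'.1 (k2 p (Finset.mem_univ _))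
  choose ε hε using fun p => k3 p _ (hc p)
  choose lo l1 l2 using fun p => exists_min_image {q | l q = l p} (·.1.2) (toFinite _) ⟨p, rfl⟩
  choose hi h1 h2 using fun p => exists_max_image {q | l q = l p} (·.1.2) (toFinite _) ⟨p, rfl⟩
  have l3 := fun p => cv.1 _ _ (l1 p)
  have h3 := fun p => cv.1 _ _ (h1 p)
  have l4 := fun p => (lo p).2
  have h4 := fun p => (hi p).2
  simp only [l3, h3] at l4 h4
  have cx : ∀ p q m, l p = l q → m.1.1 = p.1.1 → p.1.2 ≤ m.1.2 → m.1.2 ≤ q.1.2 → l m = l p := fun p q m e a b c => by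
    have g : q.1.1 = p.1.1 := (cv.1 _ _ e).symm
    exact cv.2 p q m e a (by simpa only [a] using w3 _ _ (a ▸ m.2) _ b) (by simpa only [a, g] using w3 _ _ (g ▸ q.2) _ c)
  obtain ⟨L, L1, L2⟩ : ∃ L : List {p : K × ℕ // p.2 ≤ n p.1}, L.length ≤ N ∧ ∀ p, ∃ q ∈ L, l q = l p :=
    ⟨(List.finRange N).filterMap fun A => if h : ∃ q, l q = A then some h.choose else none,
      (List.length_filterMap_le ..).trans (by simp), fun p => ⟨_, List.mem_filterMap.2 ⟨l p, List.mem_finRange _,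
        dif_pos ⟨p, rfl⟩⟩, (⟨p, rfl⟩ : ∃ q, l q = l p).choose_spec⟩⟩
  let π := fun p : {p : K × ℕ // p.2 ≤ n p.1} => ((p.1.1, c p, ε p, sw (·.1) (·.2) (ε p) (w p.1.1 (lo p).1.2, w p.1.1 (hi p).1.2),
    sw (·.2) (·.1) (ε p) (w p.1.1 (lo p).1.2, w p.1.1 (hi p).1.2)) : Pc K V)
  let F := (L.filter fun p => (hi p).1.2 < n p.1.1).map fun p => f p.1.1 (hi p).1.2
  have F1 : ∀ d ∈ F, d ∈ O ∧ 0 < ℓ d := List.forall_mem_map.2 fun p a => by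
    have a : _ < _ := of_decide_eq_true (List.mem_filter.1 a).2
    obtain ⟨⟨d, e⟩, g, i⟩ := wf _ _ a
    refine ⟨d, by_contra fun k => ?_⟩
    have := h2 p ⟨(p.1.1, (hi p).1.2 + 1), a⟩ ((cv.2 (hi p) (hi p) ⟨(p.1.1, (hi p).1.2 + 1), a⟩ rfl (h3 p).symm (by
      simpa only [h3] using w3 _ _ a _ (Nat.le_succ _)) (by simp only [h3, ← g, ← i]; unfold Tg at e; omega)).trans (h1 p))
    simp at this
  have u : ∀ p, (π p).2.2.2.1 ∈ U ∧ (π p).2.2.2.2 ∈ U := fun p => by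
    have := w4 _ _ (l4 p); have := w4 _ _ (h4 p); cases k : ε p <;> simp [π, sw, *]
  have z := fun p : {p // p ∈ L} => H.go (F := F) o1 o2 (fun d a => (F1 d a).1) (List.mem_map_of_mem (f := π) p.2) (u p).1 .refl (by
      refine sw_iff.2 ?_
      have := w1 _ _ (h4 p) _ (l2 p _ (h1 p))
      cases k : ε p <;> simpa [π, sw, k] using this)
  choose z z1 z2 z3 z4 using z
  have hp : ∀ p y, Hp x (π p) y → Hl (·.1.1) (fun p => x (w p.1.1 p.1.2)) l p y := fun p y ⟨a, b⟩ =>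
    ⟨lo p, hi p, l1 p, h1 p, by
      simp only [l3, h3]
      refine ⟨fun c => ?_, fun c => ?_⟩ <;> have a := a c <;> have b := b c <;> cases k : ε p <;>
        simp [π, sw, sg, k] at a b <;> omega⟩
  refine ⟨F, L.map π, L.attach.map z, ?_, by simpa, by simpa, ⟨fun d a => ⟨o1 (F1 d a).1, (F1 d a).2, fun b =>
    o2 d (F1 d a).1 (F1 _ b).1⟩, List.forall_mem_map.2 fun p a => ⟨(u p).1, (u p).2, ?_, ⟨_, List.mem_map_of_mem (List.mem_attach _ ⟨p, a⟩),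
      z2 _, z3 _⟩, List.forall_mem_map.2 fun q _ => (Classical.em _).imp id fun k d _ e => k4 p q
        (fun m => k (Option.some.inj ((hc p).symm.trans (m.trans (hc q))))) _ (hp p _ e.1) (hp q _ e.2)⟩,
      List.forall_mem_map.2 fun p _ => (z1 p).1, fun b => ?_⟩, _, fun z a => a.1, fun y a z b k => ?_,
      List.forall_mem_map.2 fun p _ => ⟨z1 p, z4 p⟩⟩
  · exact (List.length_map _).trans_le ((List.length_filter_le ..).trans L1)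
  · have := hε p _ _ (l1 p) (h1 p)
    simp only [l3, h3] at this
    cases k : ε p <;> simp [π, sw, sg, k] at this ⊢ <;> omega
  · have j : ∀ q ∈ L, Jp t h ℓ U x F (L.map π) q.1.1 (w q.1.1 (lo q).1.2) (w q.1.1 (hi q).1.2) := fun q a =>
      ⟨w4 _ _ (l4 q), w4 _ _ (h4 q), .inl ⟨_, List.mem_map_of_mem a, rfl, by cases k : ε q <;> simp [π, sw, k]⟩⟩
    have k : ∀ i (a : i ≤ n b), ∀ q ∈ L, l q = l ⟨(b, i), a⟩ →
        ReflTransGen (Jp t h ℓ U x F (L.map π) b) (s b) (w b (lo q).1.2) := fun i => by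
      induction i with
      | zero => exact fun a q _ e => by rw [Nat.le_zero.1 (l2 q _ e.symm), w0]
      | succ i ih =>
        intro a q m e
        obtain ⟨p, p1, p2⟩ := L2 ⟨(b, i), Nat.le_of_succ_le a⟩
        by_cases g : l q = l p
        · exact ih _ q m (g.trans p2)
        obtain rfl : p.1.1 = b := cv.1 _ _ p2
        have q1 : q.1.1 = p.1.1 := cv.1 _ ⟨(p.1.1, i + 1), a⟩ e
        have e1 : (hi p).1.2 = i := (le_of_not_gt fun k => g (e.trans ((cx ⟨(p.1.1, i), Nat.le_of_succ_le a⟩ (hi p) ⟨(p.1.1, i + 1), a⟩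
          (p2.symm.trans (h1 p).symm) rfl (Nat.le_succ _) k).trans p2.symm))).antisymm (h2 p _ p2.symm)
        have e2 : (lo q).1.2 = i + 1 := (l2 q _ e.symm).antisymm (le_of_not_gt fun k => g ((l1 q).symm.trans
          ((cx (lo q) _ ⟨(p.1.1, i), Nat.le_of_succ_le a⟩ ((l1 q).trans e) (q1.symm.trans (l3 q).symm) (Nat.le_of_lt_succ k)
            (Nat.le_succ _)).symm.trans p2.symm)))
        have := wf _ _ a
        exact ((ih _ p p1 p2).tail (j p p1)).tail ⟨w4 _ _ (h4 p), w4 _ _ (e2 ▸ a), .inr ⟨_, List.mem_map.2 ⟨p,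
          List.mem_filter.2 ⟨p1, decide_eq_true (e1 ▸ a)⟩, rfl⟩, by rw [e1, e2]; exact ⟨this.1.2, this.2⟩⟩⟩
    obtain ⟨p, p1, p2⟩ := L2 ⟨(b, n b), le_rfl⟩
    obtain rfl : p.1.1 = b := cv.1 _ _ p2
    rw [← wn, ← (h4 p).antisymm (h2 p _ p2.symm)]
    exact (k _ _ p p1 p2).tail (j p p1)
  · rcases k with ⟨d, -, d1, d2⟩ | ⟨d, -, d1, d2⟩
    · exact o2 d (by_contra fun m => d1 (a.2.1.mono fun f c => ⟨c.2, fun e => m (e ▸ c.1)⟩))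
        (by_contra fun m => d2 (b.2.1.mono fun f c => ⟨c.2, fun e => m (e ▸ c.1)⟩))
    · exact o2 d (a.2.2 d d1) (b.2.2 _ d2)

end Pool.Agent.H.MP_74cd3a_lc
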