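import Pool.Agent.H.MP_74cd3a_lc.C

namespace Pool.Agent.H.MP_74cd3a_lc

open Classical Relation Set Pool.Agent.H.MP_bc7fec_lc Pool.Agent.Lib.CX

def allL {α : Type} : ℕ → List α → List (List α)
  | 0, _ => [[]]
  | n + 1, U => [] :: (U ×ˢ allL n U).map fun p => p.1 :: p.2

theorem mem_allL {α : Type} {n} {U l : List α} : l ∈ allL n U ↔ l.length ≤ n ∧ ∀ x ∈ l, x ∈ U := by
  induction n generalizing l with
  | zero => cases l <;> simp [allL]
  | succ n ih => cases l <;> simp [allL, ih]; tauto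

section
variable {α β γ : Type} [Enc α] [Enc β] [Enc γ] {p q : α → Prop}

@[fun_prop] theorem pt_allL (n) {U : α → List β} (h : PT U) : PT fun a => allL n (U a) := by
  induction n with
  | zero => exact .const _
  | succ n ih => unfold allL; fun_prop

theorem pt (h : InP p) : PT fun a => decide (p a) := by
  obtain ⟨f, a, b⟩ := h; exact a.congr fun a => by simp [b]
theorem i_and (h : InP p) (g : InP q) : InP fun a => p a ∧ q a := .of_decide (i := fun _ => inferInstance) ((pt h).decide_and (pt g))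
theorem i_or (h : InP p) (g : InP q) : InP fun a => p a ∨ q a := .of_decide (i := fun _ => inferInstance) ((pt h).decide_or (pt g))
theorem i_not (h : InP p) : InP fun a => ¬ p a := .of_decide (i := fun _ => inferInstance) (pt h).decide_not
theorem i_all {P : α → β → Prop} {l : α → List β} (h : InP fun p : α × β => P p.1 p.2) (g : PT l) :
    InP fun a => ∀ x ∈ l a, P a x := .of_decide (i := fun _ => inferInstance) ((pt h).decide_forall g)
theorem i_ex {P : α → β → Prop} {l : α → List β} (h : InP fun p : α × β => P p.1 p.2) (g : PT l) :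
    InP fun a => ∃ x ∈ l a, P a x := .of_decide (i := fun _ => inferInstance) ((pt h).decide_exists g)
theorem i_fin [Fintype β] {P : α → β → Prop} (h : InP fun p : α × β => P p.1 p.2) : InP fun a => ∀ x, P a x :=
  (i_all h (.const Finset.univ.toList)).of_iff (by simp)
theorem i_eq {f g : α → β} (h : PT f) (k : PT g) : InP fun a => f a = g a := .of_decide (i := fun _ => inferInstance) (h.decide_eq k)
theorem i_le {f g : α → ℤ} (h : PT f) (k : PT g) : InP fun a => f a ≤ g a := .of_decide (i := fun _ => inferInstance) (h.idecide_le k)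
theorem i_lt {f g : α → ℤ} (h : PT f) (k : PT g) : InP fun a => f a < g a := .of_decide (i := fun _ => inferInstance) (h.idecide_lt k)
theorem i_mem {f : α → β} {g : α → List β} (h : PT f) (k : PT g) : InP fun a => f a ∈ g a :=
  .of_decide (i := fun _ => inferInstance) (h.decide_mem k)
theorem i_rt {E : α → β → β → Prop} {L : α → List β} {s t : α → β} (h : InP fun p : α × β × β => E p.1 p.2.1 p.2.2) (hL : PT L)
    (hs : PT s) (ht : PT t) : InP fun a => ReflTransGen (fun u v => u ∈ L a ∧ v ∈ L a ∧ E a u v) (s a) (t a) :=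
  ⟨fun a => reachB ((L a ×ˢ L a).filter fun p => E a p.1 p.2, s a, t a),
    (((pt h).filter (hL.product hL)).pair (hs.pair ht)).reachB, fun a => by simp [reachB_iff, and_assoc]⟩
theorem i_R {t h : α → γ → β} {L : α → List γ} {u v : α → β} (h1 : PT fun p : α × γ => t p.1 p.2)
    (h2 : PT fun p : α × γ => h p.1 p.2) (hL : PT L) (hu : PT u) (hv : PT v) :
    InP fun a => R (t a) (h a) {d | d ∈ L a} (u a) (v a) :=
  ⟨fun a => reachB ((L a).map fun d => (t a d, h a d), u a, v a), by fun_prop, fun a => by simp [reachB_iff, MP_bc7fec_lc.R]⟩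
theorem i_R' {t h : α → γ → β} {L : α → List γ} {u v : α → β} {e : α → γ} (h1 : PT fun p : α × γ => t p.1 p.2)
    (h2 : PT fun p : α × γ => h p.1 p.2) (hL : PT L) (hu : PT u) (hv : PT v) (he : PT e) :
    InP fun a => R (t a) (h a) ({d | d ∈ L a} \ {e a}) (u a) (v a) :=
  (i_R (L := fun a => (L a).filter (· ≠ e a)) h1 h2 (by fun_prop) hu hv).of_iff fun a => by
    rw [show {d | d ∈ L a} \ {e a} = {d | d ∈ (L a).filter (· ≠ e a)} by ext; simp]
@[fun_prop] theorem pt_sg {e : α → Bool} {z : α → ℤ} (h : PT e) (k : PT z) : PT fun a => sg (e a) (z a) := by unfold sg; fun_prop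
@[fun_prop] theorem pt_sw {t h : α → γ → β} {e : α → Bool} {d : α → γ} (h1 : PT fun p : α × γ => t p.1 p.2)
    (h2 : PT fun p : α × γ => h p.1 p.2) (h3 : PT e) (h4 : PT d) : PT fun a => sw (t a) (h a) (e a) (d a) := by
  unfold sw; fun_prop
end

theorem alg {α D V K : Type} [Enc α] [Enc D] [Enc V] [Enc K] [Fintype K] [Inhabited D] {t h : α → D → V} {r : D → D}
    {ℓ : α → D → ℤ} {S Z : α → List D} {U : α → List V} {x : α → V → K → ℤ} {s τ : α → K → V}
    (ht : PT fun p : α × D => t p.1 p.2) (hh : PT fun p : α × D => h p.1 p.2) (hr : PT r) (hl : PT fun p : α × D => ℓ p.1 p.2)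
    (hS : PT S) (hZ : PT Z) (hU : PT U) (hx : PT fun p : α × V × K => x p.1 p.2.1 p.2.2) (hs : PT fun p : α × K => s p.1 p.2)
    (hτ : PT fun p : α × K => τ p.1 p.2) (H : ∀ a, Hy (t a) (h a) r (ℓ a) (S a) (Z a) (U a) (x a) (s a)) :
    InP fun a => Or (t a) (h a) r (ℓ a) (S a) (x a) (s a) (τ a) := by
  obtain ⟨N, hN⟩ := cmp (K := K)
  obtain ⟨E, e1, e2⟩ : ∃ E : α → List (Pc K V) → List (List (El K V D)), (PT fun p : α × List (Pc K V) => E p.1 p.2) ∧
    ∀ a Q, E a Q = allL N (Q ×ˢ U a ×ˢ U a ×ˢ (none :: (S a).map some)) := ⟨_, by fun_prop, fun _ _ => rfl⟩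
  have v : InP fun p : (α × List D × List (Pc K V)) × El K V D => Vl (t p.1.1) (h p.1.1) r (ℓ p.1.1) (S p.1.1) (Z p.1.1) (U p.1.1)
      (x p.1.1) p.1.2.1 p.1.2.2 p.2 := by
    unfold Vl Lp Tg
    repeat' first | apply i_and | apply i_or | apply i_not | apply i_ex | apply i_all | apply i_fin | apply i_eq | apply i_le | apply i_lt | apply i_mem | apply i_R | fun_prop
  have c : InP fun p : α × El K V D × El K V D => Cf (t p.1) (h p.1) r (S p.1) (Z p.1) p.2.1 p.2.2 := by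
    unfold Cf
    repeat' first | apply i_and | apply i_or | apply i_not | apply i_ex | apply i_eq | apply i_R' | fun_prop
  have j : InP fun p : (α × List D × List (Pc K V)) × List (El K V D) => Ct (t p.1.1) (h p.1.1) r (ℓ p.1.1) (S p.1.1) (Z p.1.1)
      (U p.1.1) (x p.1.1) (s p.1.1) (τ p.1.1) p.1.2.1 p.1.2.2 p.2 := by
    unfold Ct Jp Hp Lp Tg
    refine i_and ?_ (i_and ?_ (i_and (i_all (v.red ⟨fun p => (p.1.1, p.2), by fun_prop, fun _ => .rfl⟩) (by fun_prop)) ?_)) <;>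
    repeat' first | apply i_and | apply i_or | apply i_not | apply i_ex | apply i_all | apply i_fin | apply i_eq | apply i_le | apply i_lt | apply i_mem | apply i_rt | fun_prop
  have g : InP fun p : (α × List D × List (Pc K V)) × List (El K V D) × List (El K V D) => Gm (Vl (t p.1.1) (h p.1.1) r (ℓ p.1.1)
      (S p.1.1) (Z p.1.1) (U p.1.1) (x p.1.1) p.1.2.1 p.1.2.2) Fi (Nd (t p.1.1) (h p.1.1) (x p.1.1)) (Nx (t p.1.1) (h p.1.1) (S p.1.1))
      (Cf (t p.1.1) (h p.1.1) r (S p.1.1) (Z p.1.1)) p.2.1 p.2.2 := by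
    unfold Gm Fi Nd Nx
    refine i_and (i_all (i_all (i_not (c.red ⟨fun p => (p.1.1.1.1, p.1.2, p.2), by fun_prop, fun _ => .rfl⟩)) ?_) ?_)
      (i_ex (i_and ?_ (i_ex (i_and (v.red ⟨fun p => (p.1.1.1, p.2), by fun_prop, fun _ => .rfl⟩) ?_) ?_)) ?_) <;>
    repeat' first | apply i_and | apply i_or | apply i_ex | apply i_all | apply i_eq | apply i_le | fun_prop
  refine InP.of_iff (B := fun a => ∃ F ∈ allL N (S a), ∃ Q ∈ allL N (Finset.univ.toList ×ˢ Finset.univ.toList ×ˢ [false, true] ×ˢ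
    U a ×ˢ U a), ∃ σ ∈ E a Q, Ct (t a) (h a) r (ℓ a) (S a) (Z a) (U a) (x a) (s a) (τ a) F Q σ ∧ ∃ ρ ∈ E a Q,
    ReflTransGen (fun u v => u ∈ E a Q ∧ v ∈ E a Q ∧ Gm (Vl (t a) (h a) r (ℓ a) (S a) (Z a) (U a) (x a) F Q) Fi (Nd (t a) (h a) (x a))
      (Nx (t a) (h a) (S a)) (Cf (t a) (h a) r (S a) (Z a)) u v) σ ρ ∧ (∀ y ∈ ρ, ∀ z ∈ ρ, ¬ Cf (t a) (h a) r (S a) (Z a) y z) ∧
      ∀ z ∈ ρ, Fi z) ?_ fun a => ?_
  · unfold Fi at *
    refine i_ex (i_ex (i_ex (i_and (j.red ⟨fun p => ((p.1.1.1, p.1.1.2, p.1.2), p.2), by fun_prop, fun _ => .rfl⟩) (i_ex (i_and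
      (i_rt (g.red ⟨fun p => ((p.1.1.1.1.1, p.1.1.1.1.2, p.1.1.1.2), p.2), by fun_prop, fun _ => .rfl⟩) ?_ ?_ ?_) (i_and
      (i_all (i_all (i_not (c.red ⟨fun p => (p.1.1.1.1.1.1, p.1.2, p.2), by fun_prop, fun _ => .rfl⟩)) ?_) ?_)
      (i_all (i_eq ?_ ?_) ?_))) ?_)) ?_) ?_) ?_ <;> fun_prop
  have m : ∀ F Q z, Vl (t a) (h a) r (ℓ a) (S a) (Z a) (U a) (x a) F Q z → z ∈ Q ×ˢ U a ×ˢ U a ×ˢ (none :: (S a).map some) := by
    rintro F Q ⟨_, _, _, _⟩ ⟨b, c, d, -, -, ⟨rfl, -⟩ | ⟨f, e, rfl, -⟩⟩ <;> simp_all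
  have G := fun F Q σ (C : Ct (t a) (h a) r (ℓ a) (S a) (Z a) (U a) (x a) (s a) (τ a) F Q σ) =>
    gm ((List.finite_toSet _).subset (m F Q)) ((H a).g1 C) ((H a).g2 C) σ C.2.2.1
  refine ⟨fun o => ?_, fun ⟨F, _, Q, _, σ, _, C, ρ, _, b, c⟩ => (H a).snd C ((G F Q σ C).2
    ⟨ρ, ReflTransGen.mono (fun _ _ h => h.2.2) _ _ b, c⟩)⟩
  obtain ⟨F, Q, σ, f, q, w, C, b⟩ := hN _ _ _ _ _ _ _ _ _ _ _ _ (H a) o
  obtain ⟨ρ, b, c⟩ := (G F Q σ C).1 b
  have k : σ ∈ E a Q := e2 a Q ▸ mem_allL.2 ⟨w, fun z e => m F Q z (C.2.2.1 z e)⟩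
  refine ⟨F, mem_allL.2 ⟨f, fun d e => (C.1 d e).1⟩, Q, mem_allL.2 ⟨q, fun ⟨_, _, ε, _, _⟩ e => by
    have := C.2.1 _ e; cases ε <;> simp_all⟩, σ, k, C, ρ, and_assoc.1 ⟨?_, c⟩⟩
  clear c
  induction b with
  | refl => exact ⟨k, .refl⟩
  | @tail u v _ b ih =>
    have : v ∈ E a Q := by
      obtain ⟨-, z, -, -, y, -, b, -, rfl⟩ := b
      have := ih.1
      rw [e2, mem_allL] at this ⊢
      exact ⟨by simpa using this.1, List.forall_mem_map.2 fun w e => by split_ifs; exacts [m F Q y b, this.2 w e]⟩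
    exact ⟨this, ih.2.tail ⟨ih.1, this, b⟩⟩

end Pool.Agent.H.MP_74cd3a_lc
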